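import Pool.Agent.SQP.J1
import Pool.Agent.SQP.M3
import Pool.Agent.SQP.M5
import Pool.Agent.SQP.M6
import Pool.Agent.SQP.N1

set_option autoImplicit false
set_option linter.unusedSectionVars false
set_option linter.unusedDecidableInType false

/-! [SQP-Z] the final theorem. -/

namespace SQP

open Finset TSPU TSPU.MG

/-- (Z) PROOF. `exists_squares hv hrow hx hxd hs d`, then `exists_Sys` gives `s` on `I = Fin m ⊕ {v // ..}`, nonempty because `s.surj` and `1 ≤ n`. `s.fea`; the costs `C = dC d s.mu s.pi` are OK (`h0`: `d ≥ 0` from the triangle inequality; `ho`, `he`: `hsymm` and `s.inv`; `hb`: for `inl i` from `exists_squares`, for `inr v` all four costs are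
`d v v = 0`). `thm_T` gives `K` of cost at most `bud C = (2/3) ∑ c, d (pi c) (pi (mu c)) + (2/3) ∑ c, d (pi c) (pi (nx c))`, which is `(4/3) * ((1/2) * ∑ i, ∑ j, d i j * x i j)` by `Sys.cost_x`. `tour_of_cfg`. -/
theorem tour_square {n : ℕ} (hn : 1 ≤ n) (d : Fin n → Fin n → ℝ) (hsymm : ∀ i j, d i j = d j i)
    (hdiag : ∀ i, d i i = 0) (htri : ∀ i j k, d i k ≤ d i j + d j k) (x : Fin n → Fin n → ℝ)
    (hx : ∀ i j, x i j = x j i) (hxd : ∀ i, x i i = 0) (hv : Val x) (hrow : ∀ i, ∑ j, x i j = 2)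
    (hcut : ∀ S : Finset (Fin n), S.Nonempty → S ≠ univ → 2 ≤ ∑ i ∈ S, ∑ j ∈ Sᶜ, x i j)
    (hs : Sqr x) :
    ∃ f : Equiv.Perm (Fin n), ∑ i, d (f i) (f (finRotate n i)) ≤
      (4 / 3 : ℝ) * ((1 / 2 : ℝ) * ∑ i, ∑ j, d i j * x i j) := by
  have hnn : ∀ i j, 0 ≤ d i j := by
    intro i j
    have h1 := htri i j i
    rw [hdiag, hsymm j i] at h1
    linarith
  obtain ⟨m, e, hinj, hrg, he, hb⟩ := exists_squares hv hrow hx hxd hs d
  obtain ⟨s, hs1, hs2⟩ := exists_Sys hv hrow hx hxd hs e hinj hrg he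
  have hne : Nonempty (Fin m ⊕ {v : Fin n // ∀ w, x v w ≠ 1 / 2}) := by
    obtain ⟨c, -⟩ := s.surj ⟨0, by omega⟩
    exact ⟨c.1⟩
  have hF := s.fea hv hx hcut
  have z3 : (3 : ZMod 4) + 1 = 0 := by decide
  have z0 : (0 : ZMod 4) + 1 = 1 := by decide
  have z1 : (1 : ZMod 4) + 1 = 2 := by decide
  have z2 : (2 : ZMod 4) + 1 = 3 := by decide
  have hOK : (dC d s.mu s.pi).OK s.mu := by
    refine ⟨fun c => hnn _ _, ?_, ?_, ?_⟩
    · intro c
      show d (s.pi (s.mu c)) (s.pi (s.mu (s.mu c))) = d (s.pi c) (s.pi (s.mu c))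
      rw [s.inv.inv, hsymm]
    · intro c
      show 2 * d (s.pi (s.mu c)) (s.pi (s.mu (s.mu c))) = 2 * d (s.pi c) (s.pi (s.mu c))
      rw [s.inv.inv, hsymm]
    · intro i
      show d (s.pi (i, 0)) (s.pi (i, 0 + 1)) + d (s.pi (i, 2)) (s.pi (i, 2 + 1)) ≤
        d (s.pi (i, 1)) (s.pi (i, 1 + 1)) + d (s.pi (i, 3)) (s.pi (i, 3 + 1))
      rw [z0, z1, z2, z3]
      rcases i with i | v
      · rw [hs1, hs1, hs1, hs1]
        exact hb i
      · rw [hs2, hs2, hs2, hs2, hdiag]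
  obtain ⟨K, hK, hKc⟩ := thm_T _ _ s.mu (dC d s.mu s.pi) rfl s.inv hF hOK
  obtain ⟨f, hf⟩ := tour_of_cfg hn d hsymm hdiag htri s.inv s.pi s.surj hK
  refine ⟨f, hf.trans (hKc.trans (le_of_eq ?_))⟩
  rw [← s.cost_x hv hx d hsymm hdiag]
  unfold bud dC
  have h1 : ∀ c, (2 / 3 : ℝ) * d (s.pi c) (s.pi (s.mu c)) + 1 / 3 * (2 * d (s.pi c) (s.pi (s.mu c))) =
      (4 / 3) * d (s.pi c) (s.pi (s.mu c)) := fun c => by ring
  simp only [h1, ← mul_sum]
  ring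

end SQP
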